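import Pool.Agent.Helper56.RZ.GoalsF

/-!
Project RZ5 (MP_f32c9c_an), packet BC5 (helper32): local form of an integral bound.
-/

set_option autoImplicit false

open Set Filter Topology MeasureTheory

namespace Pool.Agent.Helper32.RZ

open Pool.Agent.Helper56.RZ

theorem bc5 : StmtBC5 := by
  intro N K M m G U l ε β C1 CV hM hfin hMc hGc hU hl hl1 hε hβ hCV hV hG
  haveI : IsFiniteMeasure m := ⟨lt_top_iff_ne_top.2 hfin⟩
  have hC1 : 0 ≤ C1 := by
    have := hG 1 one_pos 0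
    simpa using this
  obtain ⟨S, hSdef⟩ : ∃ S : ℕ → ℝ → Set (E K), S = fun n ρ => {x | x ∈ M ∩ U ∧ G n x ≤ ρ} :=
    ⟨_, rfl⟩
  have hS : ∀ n ρ, MeasurableSet (S n ρ) := by
    intro n ρ
    have h1 : IsClosed (M ∩ G n ⁻¹' Iic ρ) :=
      (hGc n).preimage_isClosed_of_isClosed hM.isClosed isClosed_Iic
    have h2 : S n ρ = (M ∩ G n ⁻¹' Iic ρ) ∩ U := by
      rw [hSdef]
      ext x
      constructor
      · rintro ⟨⟨h1, h2⟩, h3⟩
        exact ⟨⟨h1, h3⟩, h2⟩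
      · rintro ⟨⟨h1, h3⟩, h2⟩
        exact ⟨⟨h1, h2⟩, h3⟩
    rw [h2]
    exact h1.measurableSet.inter hU.measurableSet
  obtain ⟨R, hRdef⟩ : ∃ R : ℕ → ℝ → ℝ → Set (E K × E K),
      R = fun n ρ r => {p | p.2 ∈ S n ρ ∧ dist p.2 p.1 ≤ r} := ⟨_, rfl⟩
  have hR : ∀ n ρ r, MeasurableSet (R n ρ r) := by
    intro n ρ r
    rw [hRdef]
    exact (measurable_snd (hS n ρ)).inter
      (measurableSet_le (measurable_snd.dist measurable_fst) measurable_const)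
  have hFm : ∀ n ρ r, Measurable fun x0 => m (Prod.mk x0 ⁻¹' R n ρ r) := fun n ρ r =>
    measurable_measure_prodMk_left (hR n ρ r)
  have hball : ∀ x ∈ M, ∀ r : ℝ, 0 < r → m (Metric.closedBall x r) ≤ ENNReal.ofReal (CV * r ^ N) := by
    intro x hx r hr
    have h1 : Metric.closedBall x r ⊆ {y | y ∈ M ∧ ‖y - x‖ ≤ r} ∪ Mᶜ := by
      intro y hy
      by_cases hyM : y ∈ M
      · left
        refine ⟨hyM, ?_⟩
        rw [Metric.mem_closedBall, dist_eq_norm] at hy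
        exact hy
      · right
        exact hyM
    calc m (Metric.closedBall x r) ≤ m ({y | y ∈ M ∧ ‖y - x‖ ≤ r} ∪ Mᶜ) := measure_mono h1
      _ ≤ m {y | y ∈ M ∧ ‖y - x‖ ≤ r} + m Mᶜ := measure_union_le _ _
      _ = m {y | y ∈ M ∧ ‖y - x‖ ≤ r} := by rw [hMc, add_zero]
      _ = ENNReal.ofReal (m {y | y ∈ M ∧ ‖y - x‖ ≤ r}).toReal :=
          (ENNReal.ofReal_toReal (measure_ne_top _ _)).symm
      _ ≤ _ := ENNReal.ofReal_le_ofReal (hV x hx r hr)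
  have hTon : ∀ n ρ r, 0 < r → ∫⁻ x0, m (Prod.mk x0 ⁻¹' R n ρ r) ∂m ≤
      ENNReal.ofReal (CV * r ^ N) * m (S n ρ) := by
    intro n ρ r hr
    rw [← Measure.prod_apply (hR n ρ r), Measure.prod_apply_symm (hR n ρ r)]
    calc ∫⁻ y, m ((fun x => (x, y)) ⁻¹' R n ρ r) ∂m
        ≤ ∫⁻ y, (S n ρ).indicator (fun _ => ENNReal.ofReal (CV * r ^ N)) y ∂m := by
          refine lintegral_mono fun y => ?_
          by_cases hy : y ∈ S n ρ
          · rw [indicator_of_mem hy]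
            have hyM : y ∈ M := by
              rw [hSdef] at hy
              exact hy.1.1
            refine (measure_mono ?_).trans (hball y hyM r hr)
            intro x hx
            rw [hRdef] at hx
            rw [Metric.mem_closedBall, dist_comm]
            exact hx.2
          · rw [indicator_of_notMem hy]
            have : (fun x => (x, y)) ⁻¹' R n ρ r = ∅ := by
              rw [eq_empty_iff_forall_notMem]
              intro x hx
              rw [hRdef] at hx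
              exact hy hx.1
            rw [this, measure_empty]
      _ = _ := lintegral_indicator_const (hS n ρ) _
  obtain ⟨Φ, hΦdef⟩ : ∃ Φ : ℝ → ℝ → E K → ENNReal, Φ = fun ρ r x0 =>
      ∑' n, ENNReal.ofReal (l ^ n) * m (Prod.mk x0 ⁻¹' R n ρ r) := ⟨_, rfl⟩
  have hΦm : ∀ ρ r, Measurable (Φ ρ r) := by
    intro ρ r
    rw [hΦdef]
    exact Measurable.ennreal_tsum fun n => (hFm n ρ r).const_mul _
  have hsum : ∀ ρ : ℝ, 0 < ρ → ∑' n, ENNReal.ofReal (l ^ n) * m (S n ρ) ≤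
      ENNReal.ofReal (C1 * ρ ^ 2) := by
    intro ρ hρ
    refine ENNReal.tsum_le_of_sum_range_le fun N0 => ?_
    have h1 : ∑ n ∈ Finset.range N0, ENNReal.ofReal (l ^ n) * m (S n ρ) =
        ENNReal.ofReal (∑ n ∈ Finset.range N0, l ^ n * (m (S n ρ)).toReal) := by
      rw [ENNReal.ofReal_sum_of_nonneg]
      · refine Finset.sum_congr rfl fun n _ => ?_
        rw [ENNReal.ofReal_mul (by positivity), ENNReal.ofReal_toReal (measure_ne_top _ _)]
      · intro n _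
        positivity
    rw [h1]
    refine ENNReal.ofReal_le_ofReal ?_
    have := hG ρ hρ N0
    rw [hSdef]
    exact this
  have hΦ : ∀ ρ r, 0 < ρ → 0 < r → ∫⁻ x0, Φ ρ r x0 ∂m ≤
      ENNReal.ofReal (CV * r ^ N) * ENNReal.ofReal (C1 * ρ ^ 2) := by
    intro ρ r hρ hr
    rw [hΦdef]
    calc ∫⁻ x0, ∑' n, ENNReal.ofReal (l ^ n) * m (Prod.mk x0 ⁻¹' R n ρ r) ∂m
        = ∑' n, ∫⁻ x0, ENNReal.ofReal (l ^ n) * m (Prod.mk x0 ⁻¹' R n ρ r) ∂m :=
          lintegral_tsum fun n => ((hFm n ρ r).const_mul _).aemeasurable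
      _ = ∑' n, ENNReal.ofReal (l ^ n) * ∫⁻ x0, m (Prod.mk x0 ⁻¹' R n ρ r) ∂m := by
          congr 1
          funext n
          exact lintegral_const_mul _ (hFm n ρ r)
      _ ≤ ∑' n, ENNReal.ofReal (CV * r ^ N) * (ENNReal.ofReal (l ^ n) * m (S n ρ)) := by
          refine ENNReal.tsum_le_tsum fun n => ?_
          calc ENNReal.ofReal (l ^ n) * ∫⁻ x0, m (Prod.mk x0 ⁻¹' R n ρ r) ∂m
              ≤ ENNReal.ofReal (l ^ n) * (ENNReal.ofReal (CV * r ^ N) * m (S n ρ)) := by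
                gcongr
                exact hTon n ρ r hr
            _ = _ := by ring
      _ = ENNReal.ofReal (CV * r ^ N) * ∑' n, ENNReal.ofReal (l ^ n) * m (S n ρ) :=
          ENNReal.tsum_mul_left
      _ ≤ _ := by
          gcongr
          exact hsum ρ hρ
  -- the scales
  obtain ⟨σ, hσ⟩ : ∃ σ : ℕ → ℝ, σ = fun j => (1 / 2 : ℝ) ^ j := ⟨_, rfl⟩
  have hσ0 : ∀ j, 0 < σ j := by
    intro j
    rw [hσ]
    positivity
  obtain ⟨τ, hτ⟩ : ∃ τ : ℕ → ℝ, τ = fun j => σ j ^ (2 - ε) * (σ j ^ β) ^ N := ⟨_, rfl⟩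
  have hτ0 : ∀ j, 0 < τ j := by
    intro j
    rw [hτ]
    have := hσ0 j
    positivity
  have hBC : ∀ k : ℕ, ∀ᵐ x0 ∂m, ∀ᶠ j in atTop,
      Φ (((k : ℝ) + 1) * σ j) (((k : ℝ) + 1) * σ j ^ β) x0 < ENNReal.ofReal (τ j) := by
    intro k
    obtain ⟨A, hA⟩ : ∃ A : ℝ, A = CV * C1 * ((k : ℝ) + 1) ^ (N + 2) := ⟨_, rfl⟩
    have hA0 : 0 ≤ A := by
      rw [hA]
      positivity
    have hms : ∀ j, m {x0 | ENNReal.ofReal (τ j) ≤
        Φ (((k : ℝ) + 1) * σ j) (((k : ℝ) + 1) * σ j ^ β) x0} ≤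
        ENNReal.ofReal (A * ((1 / 2 : ℝ) ^ ε) ^ j) := by
      intro j
      have hj := hσ0 j
      have h1 := mul_meas_ge_le_lintegral (μ := m)
        (hΦm (((k : ℝ) + 1) * σ j) (((k : ℝ) + 1) * σ j ^ β)) (ENNReal.ofReal (τ j))
      have h2 := h1.trans (hΦ (((k : ℝ) + 1) * σ j) (((k : ℝ) + 1) * σ j ^ β) (by positivity)
        (by positivity))
      have h3 : CV * (((k : ℝ) + 1) * σ j ^ β) ^ N * (C1 * (((k : ℝ) + 1) * σ j) ^ 2) =
          τ j * (A * ((1 / 2 : ℝ) ^ ε) ^ j) := by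
        have e1 : ((1 / 2 : ℝ) ^ ε) ^ j = σ j ^ ε := by
          rw [hσ]
          exact Real.rpow_pow_comm (by norm_num) _ _
        have e2 : σ j ^ (2 - ε) * σ j ^ ε = σ j ^ 2 := by
          rw [← Real.rpow_add hj]
          norm_num
        have e3 : τ j = σ j ^ (2 - ε) * (σ j ^ β) ^ N := by rw [hτ]
        rw [e1, e3, hA, mul_pow, mul_pow]
        calc CV * (((k : ℝ) + 1) ^ N * (σ j ^ β) ^ N) * (C1 * (((k : ℝ) + 1) ^ 2 * σ j ^ 2))
            = CV * C1 * ((k : ℝ) + 1) ^ (N + 2) * (σ j ^ β) ^ N * σ j ^ 2 := by ring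
          _ = CV * C1 * ((k : ℝ) + 1) ^ (N + 2) * (σ j ^ β) ^ N *
                (σ j ^ (2 - ε) * σ j ^ ε) := by rw [e2]
          _ = _ := by ring
      rw [← ENNReal.ofReal_mul (by positivity), h3, ENNReal.ofReal_mul (hτ0 j).le] at h2
      have h4 : ENNReal.ofReal (τ j) ≠ 0 := by
        rw [Ne, ENNReal.ofReal_eq_zero, not_le]
        exact hτ0 j
      exact (ENNReal.mul_le_mul_iff_right h4 ENNReal.ofReal_ne_top).1 h2
    have hq0 : 0 ≤ (1 / 2 : ℝ) ^ ε := by positivity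
    have hq1 : (1 / 2 : ℝ) ^ ε < 1 := Real.rpow_lt_one (by norm_num) (by norm_num) hε
    have hsm : Summable fun j : ℕ => A * ((1 / 2 : ℝ) ^ ε) ^ j :=
      (summable_geometric_of_lt_one hq0 hq1).mul_left A
    have hfin2 : ∑' j, m {x0 | ENNReal.ofReal (τ j) ≤
        Φ (((k : ℝ) + 1) * σ j) (((k : ℝ) + 1) * σ j ^ β) x0} ≠ ⊤ := by
      refine ne_top_of_le_ne_top ?_ (ENNReal.tsum_le_tsum hms)
      rw [← ENNReal.ofReal_tsum_of_nonneg (fun j => by positivity) hsm]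
      exact ENNReal.ofReal_ne_top
    have := ae_eventually_notMem hfin2
    filter_upwards [this] with x0 hx0
    filter_upwards [hx0] with j hj
    exact not_le.1 hj
  rw [← ae_all_iff] at hBC
  filter_upwards [hBC] with x0 hx0 hxU C2
  obtain ⟨k, hk⟩ := exists_nat_ge C2
  obtain ⟨κ, hκ⟩ : ∃ κ : ℝ, κ = (k : ℝ) + 1 := ⟨_, rfl⟩
  have hκ0 : 0 < κ := by
    rw [hκ]
    positivity
  have hκC : C2 ≤ κ := by
    rw [hκ]
    linarith
  obtain ⟨δ, hδ, hball2⟩ := Metric.isOpen_iff.1 hU x0 hxU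
  have hσlim : Tendsto σ atTop (𝓝 0) := by
    rw [hσ]
    exact tendsto_pow_atTop_nhds_zero_of_lt_one (by norm_num) (by norm_num)
  have hσβ : Tendsto (fun j => κ * σ j ^ β) atTop (𝓝 0) := by
    have h1 : Tendsto (fun j => σ j ^ β) atTop (𝓝 ((0 : ℝ) ^ β)) :=
      hσlim.rpow_const (Or.inr hβ.le)
    rw [Real.zero_rpow hβ.ne'] at h1
    have h2 := h1.const_mul κ
    rw [mul_zero] at h2
    exact h2
  have hev : ∀ᶠ j in atTop, Φ (κ * σ j) (κ * σ j ^ β) x0 < ENNReal.ofReal (τ j) ∧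
      κ * σ j ^ β < δ := by
    refine Filter.Eventually.and ?_ (hσβ.eventually (gt_mem_nhds hδ))
    rw [hκ]
    exact hx0 k
  obtain ⟨J, hJ⟩ := eventually_atTop.1 hev
  refine ⟨4 * ((2 : ℝ) ^ β) ^ N, σ J, by positivity, hσ0 J, ?_, ?_⟩
  · rw [hσ]
    exact pow_le_one₀ (by norm_num) (by norm_num)
  intro ρ hρ hρJ N0
  have hρ1 : ρ ≤ 1 := by
    refine hρJ.trans ?_
    rw [hσ]
    exact pow_le_one₀ (by norm_num) (by norm_num)
  obtain ⟨j, hj1, hj2⟩ := exists_nat_pow_near_of_lt_one hρ hρ1 (show (0 : ℝ) < 1 / 2 by norm_num)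
    (show (1 / 2 : ℝ) < 1 by norm_num)
  have hjJ : J ≤ j := by
    by_contra hlt
    rw [not_le] at hlt
    have h1 : σ J ≤ (1 / 2 : ℝ) ^ (j + 1) := by
      rw [hσ]
      exact pow_le_pow_of_le_one (by norm_num) (by norm_num) hlt
    linarith
  obtain ⟨hΦj, hδj⟩ := hJ j hjJ
  have hσj : (1 / 2 : ℝ) ^ j = σ j := by rw [hσ]
  rw [hσj] at hj2
  have hj3 : σ j ≤ 2 * ρ := by
    have : (1 / 2 : ℝ) ^ (j + 1) = σ j / 2 := by
      rw [pow_succ, hσj]
      ring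
    rw [this] at hj1
    linarith
  have hsub : ∀ n, {x | x ∈ M ∧ ‖x - x0‖ ≤ C2 * ρ ^ β ∧ G n x ≤ C2 * ρ} ⊆
      Prod.mk x0 ⁻¹' R n (κ * σ j) (κ * σ j ^ β) := by
    intro n x hx
    obtain ⟨hxM, hx1, hx2⟩ := hx
    have h1 : C2 * ρ ^ β ≤ κ * σ j ^ β := by
      calc C2 * ρ ^ β ≤ κ * ρ ^ β := mul_le_mul_of_nonneg_right hκC (by positivity)
        _ ≤ κ * σ j ^ β := mul_le_mul_of_nonneg_left
            (Real.rpow_le_rpow hρ.le hj2 hβ.le) hκ0.le
    have h2 : C2 * ρ ≤ κ * σ j := by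
      calc C2 * ρ ≤ κ * ρ := mul_le_mul_of_nonneg_right hκC hρ.le
        _ ≤ κ * σ j := mul_le_mul_of_nonneg_left hj2 hκ0.le
    have h3 : dist x x0 ≤ κ * σ j ^ β := by
      rw [dist_eq_norm]
      exact hx1.trans h1
    rw [hRdef, hSdef]
    refine ⟨⟨⟨hxM, hball2 ?_⟩, hx2.trans h2⟩, h3⟩
    rw [Metric.mem_ball]
    exact lt_of_le_of_lt h3 hδj
  have hle : ENNReal.ofReal (∑ n ∈ Finset.range N0,
      l ^ n * (m {x | x ∈ M ∧ ‖x - x0‖ ≤ C2 * ρ ^ β ∧ G n x ≤ C2 * ρ}).toReal) ≤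
      ENNReal.ofReal (τ j) := by
    calc ENNReal.ofReal (∑ n ∈ Finset.range N0,
          l ^ n * (m {x | x ∈ M ∧ ‖x - x0‖ ≤ C2 * ρ ^ β ∧ G n x ≤ C2 * ρ}).toReal)
        = ∑ n ∈ Finset.range N0, ENNReal.ofReal (l ^ n) *
          m {x | x ∈ M ∧ ‖x - x0‖ ≤ C2 * ρ ^ β ∧ G n x ≤ C2 * ρ} := by
          rw [ENNReal.ofReal_sum_of_nonneg]
          · refine Finset.sum_congr rfl fun n _ => ?_
            rw [ENNReal.ofReal_mul (by positivity), ENNReal.ofReal_toReal (measure_ne_top _ _)]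
          · intro n _
            positivity
      _ ≤ ∑ n ∈ Finset.range N0, ENNReal.ofReal (l ^ n) *
          m (Prod.mk x0 ⁻¹' R n (κ * σ j) (κ * σ j ^ β)) := by
          refine Finset.sum_le_sum fun n _ => ?_
          gcongr
          exact hsub n
      _ ≤ Φ (κ * σ j) (κ * σ j ^ β) x0 := by
          rw [hΦdef]
          exact ENNReal.sum_le_tsum _
      _ ≤ _ := hΦj.le
  have hle2 := (ENNReal.ofReal_le_ofReal_iff (hτ0 j).le).1 hle
  refine hle2.trans ?_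
  -- the last comparison
  obtain ⟨c, hc⟩ : ∃ c : ℝ, c = σ j / ρ := ⟨_, rfl⟩
  have hcσ : σ j = c * ρ := by
    rw [hc]
    field_simp
  have hc1 : 1 ≤ c := by
    rw [hc, le_div_iff₀ hρ]
    linarith
  have hc2 : c ≤ 2 := by
    rw [hc, div_le_iff₀ hρ]
    exact hj3
  have hc0 : 0 ≤ c := by linarith
  have e1 : c ^ (2 - ε) ≤ 4 := by
    calc c ^ (2 - ε) ≤ c ^ (2 : ℝ) := Real.rpow_le_rpow_of_exponent_le hc1 (by linarith)
      _ = c ^ 2 := by norm_cast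
      _ ≤ 4 := by nlinarith
  have e2 : (c ^ β) ^ N ≤ ((2 : ℝ) ^ β) ^ N :=
    pow_le_pow_left₀ (by positivity) (Real.rpow_le_rpow hc0 hc2 hβ.le) N
  have e3 : τ j = σ j ^ (2 - ε) * (σ j ^ β) ^ N := by rw [hτ]
  rw [e3, hcσ, Real.mul_rpow hc0 hρ.le, Real.mul_rpow hc0 hρ.le, mul_pow]
  calc c ^ (2 - ε) * ρ ^ (2 - ε) * ((c ^ β) ^ N * (ρ ^ β) ^ N)
      = (c ^ (2 - ε) * (c ^ β) ^ N) * (ρ ^ (2 - ε) * (ρ ^ β) ^ N) := by ring
    _ ≤ (4 * ((2 : ℝ) ^ β) ^ N) * (ρ ^ (2 - ε) * (ρ ^ β) ^ N) := by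
        refine mul_le_mul_of_nonneg_right ?_ (by positivity)
        exact mul_le_mul e1 e2 (by positivity) (by norm_num)
    _ = _ := by ring

end Pool.Agent.Helper32.RZ
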